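import Pool.Agent.H9.K2.Stmts
import Pool.Agent.H20.KA.TRC
import Pool.Agent.H58.STK.Base

/-!
# The class `(a, R)`: truncation
-/

set_option autoImplicit false

namespace Pool.KA

open Finset Real
open Pool.Agent.H49.Ent Pool.Agent.H32.Dense Pool.STK

namespace AP3

/-- Chain rule for a variable which is determined by the other one. -/
lemma chain_det {Ω S T U : Type} [Fintype Ω] {p : Ω → ℝ} (hp : ∀ ω, 0 ≤ p ω) (X : Ω → S)
    (Y : Ω → T) (W : Ω → U) (h : Det p X Y) :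
    CH p X W = CH p Y W + CH p X (fun ω => (Y ω, W ω)) := by
  rw [← CH_chain hp X Y W]
  refine CH_congr hp ?_ ?_ ?_ ?_
  · intro ω ω' a c e
    have e1 := (Prod.ext_iff.1 e).1
    exact Prod.ext e1 (h ω ω' a c e1)
  · intro ω ω' _ _ e
    exact (Prod.ext_iff.1 (Prod.ext_iff.1 e).1).1
  · intro ω ω' _ _ e
    exact e
  · intro ω ω' _ _ e
    exact e

end AP3

open AP3 in
/-- **Truncation**: the rate of the positions on `(x, J]`. -/
theorem ap3_thm (hO : AOPStmt) : AP3Stmt := by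
  intro m
  obtain ⟨C, hC, h⟩ := hO m
  refine ⟨C, hC, ?_⟩
  intro J x hx F a R η e ha hη he hF hT
  have ha0 : 0 ≤ a := by linarith
  have h1 := (h J F a ha0).2.2.2 x hx e he
  rw [abs_le] at h1
  have hp := F.isLaw.nonneg
  have hxJ : (x : ℝ) ≤ J := by exact_mod_cast hx
  have d1 : CH F.p (F.D J) F.Z = CH F.p (F.D x) F.Z +
      CH F.p (F.D J) (fun ω => (F.D x ω, F.Z ω)) :=
    chain_det hp _ _ _ fun ω ω' _ _ e => Pool.STK.B58.fl_fine hx e
  have d2 : CH F.p (F.X J) F.W = CH F.p (F.X x) F.W +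
      CH F.p (F.X J) (fun ω => (F.X x ω, F.W ω)) :=
    chain_det hp _ _ _ fun ω ω' _ _ e => Pool.STK.B58.fl_fine hx e
  have d3 : CH F.p (F.D J) (fun ω => (F.D x ω, F.Z ω)) ≤ m * (((J : ℝ) - x) * Real.log 2) := by
    have h2 := TRC.CH_floor F.isLaw F.d F.Z x (J - x)
    rw [Nat.add_sub_of_le hx, Nat.cast_sub hx] at h2
    exact h2
  unfold Fam.Ga at hF
  rw [d1, d2] at hF
  have e1 : η * x ≤ η * J := mul_le_mul_of_nonneg_left hxJ hη
  have main : a * CH F.p (F.X J) (fun ω => (F.X x ω, F.W ω)) ≤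
      CH F.p (F.D J) (fun ω => (F.D x ω, F.Z ω)) - R * ((J : ℝ) - x) + 2 * η * J +
        a * (e + C) := by
    nlinarith [h1.1, h1.2]
  refine ⟨main, ?_⟩
  nlinarith [main, d3]

end Pool.KA
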