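import Pool.Agent.H9.K2.Stmts2
import Pool.Agent.H34.K2.AEX
import Pool.Agent.H20.KA.TRC

/-!
# Existence of regular maximal families
-/

set_option autoImplicit false

namespace Pool.KA

open Finset Real
open Pool.Agent.H49.Ent Pool.Agent.H32.Dense Pool.STK

namespace REX

/-- The types of the basic list. -/
def S (m : ℕ) : Fin 5 → Type
  | 0 => Fin m → ℤ
  | 1 => (Fin m → ℤ) × ℕ
  | 2 => ℕ
  | 3 => ((Fin m → ℝ) × (Fin m → ℝ)) × ℕ
  | 4 => (Fin m → ℝ) × (Fin m → ℝ)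

/-- The basic list. -/
noncomputable def lst {m J : ℕ} (F : Fam m J) : ∀ i : Fin 5, F.Ω → S m i
  | 0 => F.D J
  | 1 => fun ω => (F.X J ω, F.T ω)
  | 2 => F.T
  | 3 => fun ω => (F.l ω, F.T ω)
  | 4 => F.l

variable {m J : ℕ}

/-- Constant side information has no entropy. -/
lemma H_Z {F : Fam m J} (h : F.Tr) : H F.p F.Z = 0 := by
  obtain ⟨z, hz⟩ := h
  have h1 : H F.p F.Z = H F.p (fun _ => z) := by
    refine H_congr F.isLaw.nonneg ?_ ?_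
    · intro ω ω' a b _
      rw [hz ω a.ne', hz ω' b.ne']
    · intro ω ω' _ _ _
      rfl
  rw [h1]
  exact H_const F.isLaw.sum_one z

/-- Entropies given constant side information. -/
lemma H_le {F : Fam m J} (h : F.Tr) {U : Type} (X : F.Ω → U) : H F.p X ≤ CH F.p X F.Z := by
  have h1 : CH F.p X F.Z = H F.p (fun ω => (X ω, F.Z ω)) - H F.p F.Z := rfl
  rw [h1, H_Z h, sub_zero]
  exact H_mono F.isLaw.nonneg fun ω ω' _ _ e => (Prod.ext_iff.1 e).1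

/-- The entropy of the positions in nearly maximal families. -/
lemma CH_X {F : Fam m J} {a R τ : ℝ} (ha : 1 ≤ a) (hτ : τ ≤ R) (h : F.Mx a R τ) :
    CH F.p (F.X J) F.W ≤ CH F.p (F.D J) F.Z := by
  have h1 := h.2
  have h2 : F.Ga a = CH F.p (F.D J) F.Z - a * CH F.p (F.X J) F.W := rfl
  have h3 : 0 ≤ (R - τ) * J := mul_nonneg (by linarith only [hτ]) (Nat.cast_nonneg J)
  have h4 := CH_nonneg F.isLaw.nonneg (F.X J) F.W
  nlinarith only [h1, h2, h3, ha, h4]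

lemma T_le (F : Fam m J) : CH F.p F.T F.Z ≤ J * Real.log 2 :=
  TRC.CH_lt F.isLaw F.T F.Z J F.tim

/-- A bound for the entropy of the pair of a variable and the time. -/
lemma pair_le (F : Fam m J) {U : Type} (X : F.Ω → U) :
    CH F.p (fun ω => (X ω, F.T ω)) F.Z ≤ CH F.p X F.W + J * Real.log 2 := by
  rw [CH_chain F.isLaw.nonneg X F.T F.Z]
  have h1 : CH F.p X (fun ω => (F.T ω, F.Z ω)) = CH F.p X F.W := rfl
  have := T_le F
  linarith only [h1, this]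

end REX

open REX in
/-- Regular maximal families with constant side information and rounded lines exist. -/
theorem rex_thm (hE : MEXStmt) (hZ : MZVStmt) (hN : MRNStmt) (hM : RMXStmt) : REXStmt := by
  intro m a R ha hR hUB hLB τ hτ e he J₀
  obtain ⟨C, hC, hN⟩ := hN m
  set L : ℝ := m * Real.log 2 with hL
  have hl2 : 0 < Real.log 2 := Real.log_pos (by norm_num)
  have hL0 : 0 ≤ L := mul_nonneg (Nat.cast_nonneg m) hl2.le
  set B : ℝ := 8 * L + Real.log 2 + C + a * C + 1 with hB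
  have hB0 : 0 < B := by positivity
  obtain ⟨τ₁, hτ₁, π₀, hπ₀, J₁, hM⟩ := hM m a R ha hR hUB 5 B e τ hB0 he hτ
  set τ' : ℝ := min (τ₁ / 2) R with hτ'
  have hτ'0 : 0 < τ' := lt_min (by linarith) hR
  have hτ'1 : τ' ≤ τ₁ / 2 := min_le_left _ _
  have hτ'R : τ' ≤ R := min_le_right _ _
  obtain ⟨τ₀, hτ₀, J₂, hZ⟩ := hZ m a R ha hR hUB τ' hτ'0
  obtain ⟨J₃, hJ₃⟩ := exists_nat_ge (2 * (a * C) / τ₁)
  obtain ⟨J, hJ, F₀, hF₀⟩ := hE m a R hLB τ₀ hτ₀ (J₀ + J₁ + J₂ + J₃ + 1)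
  have hJr : (1 : ℝ) ≤ J := by exact_mod_cast (by omega : 1 ≤ J)
  have hJ3r : (J₃ : ℝ) ≤ J := by exact_mod_cast (by omega : J₃ ≤ J)
  obtain ⟨z, hz, hMx1, hTr1⟩ := hZ J (by omega) F₀ hF₀
  set F₁ := F₀.res F₀.Z z hz with hF₁
  have hr := hN J F₁ a (τ' * J) (by linarith only [ha]) hMx1.1
  obtain ⟨hr1, hr2, hr3⟩ := hr
  have hTr2 : F₁.rnd.Tr := hTr1
  rw [abs_le] at hr2
  have hJt : a * C ≤ τ₁ / 2 * J := by
    have := hJ₃.trans hJ3r
    rw [div_le_iff₀ hτ₁] at this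
    linarith only [this]
  have hMx2 : F₁.rnd.Mx a R τ₁ := by
    refine ⟨?_, ?_⟩
    · have h1 : (J : ℝ) * Real.log 2 - τ' * J ≤
          CH F₁.rnd.p F₁.rnd.T (fun ω => (F₁.rnd.l ω, F₁.rnd.Z ω)) := hr1
      have h2 : τ' * (J : ℝ) ≤ τ₁ * J := by nlinarith only [hr2, hJt, hτ'1]
      change (J : ℝ) * Real.log 2 - τ₁ * J ≤ _
      linarith only [h1, h2]
    · have h1 := hMx1.2
      have h2 : τ' * (J : ℝ) ≤ τ₁ / 2 * J := mul_le_mul_of_nonneg_right hτ'1 (by linarith only [hJr])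
      linarith only [hr2, hJt, h1, h2, hr2.1]
  -- entropies
  have hdir : ∀ G : Fam m J, CH G.p (G.D J) G.Z ≤ 4 * L * J := by
    intro G
    have h1 := aex_dir G
    have h2 : (m : ℝ) * (((J : ℝ) + 3) * Real.log 2) = L * (J + 3) := by rw [hL]; ring
    rw [h2] at h1
    nlinarith only [h1, hL0, hJr]
  have hX1 : CH F₁.p (F₁.X J) F₁.W ≤ 4 * L * J := (CH_X ha hτ'R hMx1).trans (hdir F₁)
  have hX2 : CH F₁.rnd.p (F₁.rnd.X J) F₁.rnd.W ≤ 4 * L * J + a * C := by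
    have h1 : F₁.rnd.Ga a = CH F₁.rnd.p (F₁.rnd.D J) F₁.rnd.Z -
      a * CH F₁.rnd.p (F₁.rnd.X J) F₁.rnd.W := rfl
    have h2 : 0 ≤ (R - τ') * J := mul_nonneg (by linarith only [hτ'R]) (by linarith only [hJr])
    have h3 := hMx1.2
    have h4 := hdir F₁.rnd
    have h5 := CH_nonneg F₁.rnd.isLaw.nonneg (F₁.rnd.X J) F₁.rnd.W
    nlinarith only [hr2, h1, h2, h3, h4, ha, h5, hr2.1]
  have hl : CH F₁.rnd.p F₁.rnd.l F₁.rnd.W ≤ 8 * L * J + C := by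
    have h1 : CH F₁.rnd.p F₁.rnd.l F₁.rnd.W ≤
      CH F₁.p (F₁.X J) F₁.W + CH F₁.p (F₁.D J) F₁.Z + C := hr3
    linarith only [hX1, h1, hdir, hdir F₁]
  have hLJ : 0 ≤ L * J := mul_nonneg hL0 (by linarith only [hJr])
  have hlJ : 0 ≤ Real.log 2 * J := mul_nonneg hl2.le (by linarith only [hJr])
  have hCJ : C ≤ C * J := by nlinarith only [hC, hJr]
  have haC : 0 ≤ a * C := mul_nonneg (by linarith only [ha]) hC
  have haCJ : a * C ≤ a * C * J := by nlinarith only [hCJ, ha]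
  have hBJ : B * J = 8 * (L * J) + Real.log 2 * J + C * J + a * C * J + J := by
    rw [hB]
    ring
  have hbd : ∀ i, H F₁.rnd.p (lst F₁.rnd i) ≤ B * J := by
    intro i
    refine (H_le hTr2 _).trans ?_
    rw [hBJ]
    match i with
    | 0 =>
      have h1 : CH F₁.rnd.p (F₁.rnd.D J) F₁.rnd.Z ≤ 4 * L * J := hdir F₁.rnd
      change CH F₁.rnd.p (F₁.rnd.D J) F₁.rnd.Z ≤ _
      nlinarith only [hC, hJr, hr2, hLJ, hlJ, hCJ, haCJ, h1]
    | 1 =>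
      have h1 := pair_le F₁.rnd (F₁.rnd.X J)
      change CH F₁.rnd.p (fun ω => (F₁.rnd.X J ω, F₁.rnd.T ω)) F₁.rnd.Z ≤ _
      nlinarith only [hC, hJr, hX2, hLJ, hCJ, haCJ, h1]
    | 2 =>
      have h1 := T_le F₁.rnd
      change CH F₁.rnd.p F₁.rnd.T F₁.rnd.Z ≤ _
      nlinarith only [hC, hJr, hr2, hLJ, hCJ, haCJ, h1]
    | 3 =>
      have h1 := pair_le F₁.rnd F₁.rnd.l
      change CH F₁.rnd.p (fun ω => (F₁.rnd.l ω, F₁.rnd.T ω)) F₁.rnd.Z ≤ _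
      nlinarith only [hJr, hr2, hl, hCJ, haCJ, h1]
    | 4 =>
      have h1 := pair_le F₁.rnd F₁.rnd.l
      have h2 : CH F₁.rnd.p F₁.rnd.l F₁.rnd.Z ≤
          CH F₁.rnd.p (fun ω => (F₁.rnd.l ω, F₁.rnd.T ω)) F₁.rnd.Z :=
        CH_mono_left F₁.rnd.isLaw.nonneg fun ω ω' _ _ e =>
          (Prod.ext_iff.1 (Prod.ext_iff.1 e).1).1
      change CH F₁.rnd.p F₁.rnd.l F₁.rnd.Z ≤ _
      nlinarith only [hJr, hr2, hl, hCJ, haCJ, h1, h2]
  obtain ⟨A, -, hA, hMx3, hreg⟩ := hM J (by omega) F₁.rnd hMx2 (S m) (lst F₁.rnd) hbd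
  refine ⟨J, by omega, F₁.rnd.res A True hA, hMx3, ?_, ?_⟩
  · obtain ⟨z', hz'⟩ := hTr2
    refine ⟨z', fun ω hω => hz' ω fun h0 => hω ?_⟩
    change cond F₁.rnd.p A True ω = 0
    unfold Agent.H49.Ent.cond
    split_ifs
    · rw [h0, zero_div]
    · rfl
  · exact ⟨hreg 0, hreg 1, hreg 2, hreg 3, hreg 4⟩

end Pool.KA
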